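import Pool.Agent.Helper22.SC.Ops2
import Pool.Agent.Helper66.SC.Defs

/-! # F2: posets of functions are homogeneous -/

namespace Pool.Agent.Helper83.SC

universe u

open ZFSet
open Pool.Agent.Helper66.SC Pool.Agent.Helper22.SC

/-- functional sets of pairs -/
def Fn (p : ZFSet.{u}) : Prop :=
  (∀ x y z, pair x y ∈ p → pair x z ∈ p → y = z) ∧ ∀ s ∈ p, ∃ x y, s = pair x y

theorem mem_FP {M : Set ZFSet.{u}} {T J p : ZFSet.{u}} :
    p ∈ FP M T J ↔ p ∈ M ∧ p ⊆ T ∧ Fn p ∧ dom p ∈ J := by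
  unfold FP Fn
  rw [ZFSet.mem_sep, mem_Pow]
  have h : (∃ d ∈ J, ∀ x, x ∈ d ↔ ∃ y, pair x y ∈ p) ↔ dom p ∈ J := by
    constructor
    · rintro ⟨d, hd, h⟩
      have : d = dom p := by
        ext x
        rw [h, mem_dom]
      rwa [← this]
    · intro h
      exact ⟨_, h, fun x => mem_dom⟩
  rw [h]
  tauto

theorem fn_iff {p : ZFSet.{u}} : Fn p ↔ (∀ z ∈ p, ∀ w ∈ p, pfst z = pfst w → z = w) ∧
    ∀ s ∈ p, s = pair (pfst s) (psnd s) := by
  constructor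
  · rintro ⟨h1, h2⟩
    have h3 : ∀ s ∈ p, s = pair (pfst s) (psnd s) := by
      intro s hs
      obtain ⟨x, y, rfl⟩ := h2 s hs
      rw [pfst_pair, psnd_pair]
    refine ⟨?_, h3⟩
    intro z hz w hw h
    obtain ⟨x, y, rfl⟩ := h2 z hz
    obtain ⟨x', y', rfl⟩ := h2 w hw
    rw [pfst_pair, pfst_pair] at h
    subst h
    rw [h1 _ _ _ hz hw]
  · rintro ⟨h1, h2⟩
    refine ⟨?_, fun s hs => ⟨_, _, h2 s hs⟩⟩
    intro x y z h3 h4
    have := h1 _ h3 _ h4 (by rw [pfst_pair, pfst_pair])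
    exact (pair_inj.1 this).2

theorem FP_mem {M A : Set ZFSet.{u}} (hM : IsZF M A) {T J : ZFSet.{u}} (hT : T ∈ M) (hJ : J ∈ M) :
    FP M T J ∈ M := by
  have h0 : U (fun M A => IsZF M A) (fun N _ (a : ZFSet.{u} × ZFSet.{u}) =>
      ZFSet.sep (fun p => ((∀ z ∈ p, ∀ w ∈ p, pfst z = pfst w → z = w) ∧
        ∀ s ∈ p, s = pair (pfst s) (psnd s)) ∧ dom p ∈ a.2) (Pow N a.1)) := by
    apply_rules (transparency := .reducible) (maxDepth := 400) using is_poly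
  have h1 := in_zfset.1 (h0.closed hM (a := (T, J)) (by simp [hT, hJ]))
  have h2 : FP M T J = ZFSet.sep (fun p => ((∀ z ∈ p, ∀ w ∈ p, pfst z = pfst w → z = w) ∧
        ∀ s ∈ p, s = pair (pfst s) (psnd s)) ∧ dom p ∈ J) (Pow M T) := by
    ext p
    rw [mem_FP, ZFSet.mem_sep, mem_Pow, ← fn_iff]
    tauto
  rw [h2]
  exact h1

/-- classical case distinction -/
noncomputable def cit (c : Prop) (a b : ZFSet.{u}) : ZFSet.{u} :=
  @ite _ c (Classical.propDecidable c) a b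

theorem cit_pos {c : Prop} {a b : ZFSet.{u}} (h : c) : cit c a b = a := if_pos h

theorem cit_neg {c : Prop} {a b : ZFSet.{u}} (h : ¬ c) : cit c a b = b := if_neg h

theorem U_cit {C : Cls.{u}} [ZCls C] {α : Type (u + 1)} [Ctx.{u} α]
    {R : Set ZFSet.{u} → Set ZFSet.{u} → α → Prop}
    {f g : Set ZFSet.{u} → Set ZFSet.{u} → α → ZFSet.{u}} (hR : URel C R) (hf : U C f)
    (hg : U C g) : U C (fun N A a => cit (R N A a) (f N A a) (g N A a)) := U.ite hR hf hg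

/-- exchanges `p i` and `q i` in the second component over the common domain -/
noncomputable def sw (p q z : ZFSet.{u}) : ZFSet.{u} :=
  cit (pfst z ∈ dom p ∧ pfst z ∈ dom q)
    (cit (psnd z = app p (pfst z)) (pair (pfst z) (app q (pfst z)))
      (cit (psnd z = app q (pfst z)) (pair (pfst z) (app p (pfst z))) z)) z

theorem sw_out {p q x y : ZFSet.{u}} (h : ¬ (x ∈ dom p ∧ x ∈ dom q)) :
    sw p q (pair x y) = pair x y := by
  unfold sw
  rw [pfst_pair, psnd_pair, cit_neg h]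

theorem sw_p {p q x y z : ZFSet.{u}} (hp : Fn p) (hq : Fn q) (h1 : pair x y ∈ p)
    (h2 : pair x z ∈ q) : sw p q (pair x y) = pair x z := by
  have e1 : app p x = y := app_eq h1 fun w hw => hp.1 _ _ _ hw h1
  have e2 : app q x = z := app_eq h2 fun w hw => hq.1 _ _ _ hw h2
  unfold sw
  rw [pfst_pair, psnd_pair, cit_pos ⟨mem_dom.2 ⟨_, h1⟩, mem_dom.2 ⟨_, h2⟩⟩, e1, e2, cit_pos rfl]

theorem sw_q {p q x y z : ZFSet.{u}} (hp : Fn p) (hq : Fn q) (h1 : pair x y ∈ p)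
    (h2 : pair x z ∈ q) : sw p q (pair x z) = pair x y := by
  have e1 : app p x = y := app_eq h1 fun w hw => hp.1 _ _ _ hw h1
  have e2 : app q x = z := app_eq h2 fun w hw => hq.1 _ _ _ hw h2
  unfold sw
  rw [pfst_pair, psnd_pair, cit_pos ⟨mem_dom.2 ⟨_, h1⟩, mem_dom.2 ⟨_, h2⟩⟩, e1, e2]
  by_cases h : z = y
  · rw [cit_pos h, h]
  · rw [cit_neg h, cit_pos rfl]

theorem sw_n {p q x y z w : ZFSet.{u}} (hp : Fn p) (hq : Fn q) (h1 : pair x y ∈ p)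
    (h2 : pair x z ∈ q) (hy : w ≠ y) (hz : w ≠ z) : sw p q (pair x w) = pair x w := by
  have e1 : app p x = y := app_eq h1 fun w hw => hp.1 _ _ _ hw h1
  have e2 : app q x = z := app_eq h2 fun w hw => hq.1 _ _ _ hw h2
  unfold sw
  rw [pfst_pair, psnd_pair, cit_pos ⟨mem_dom.2 ⟨_, h1⟩, mem_dom.2 ⟨_, h2⟩⟩, e1, e2, cit_neg hy,
    cit_neg hz]

/-- all facts on `sw` -/
theorem sw_cases {p q : ZFSet.{u}} (hp : Fn p) (hq : Fn q) (x y : ZFSet.{u}) :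
    ∃ z, sw p q (pair x y) = pair x z ∧ sw p q (pair x z) = pair x y ∧
      (z = y ∨ pair x z ∈ p ∨ pair x z ∈ q) := by
  by_cases h : x ∈ dom p ∧ x ∈ dom q
  · obtain ⟨h1, h2⟩ := h
    obtain ⟨a, ha⟩ := mem_dom.1 h1
    obtain ⟨b, hb⟩ := mem_dom.1 h2
    by_cases hya : y = a
    · subst hya
      exact ⟨b, sw_p hp hq ha hb, sw_q hp hq ha hb, Or.inr (Or.inr hb)⟩
    · by_cases hyb : y = b
      · subst hyb
        exact ⟨a, sw_q hp hq ha hb, sw_p hp hq ha hb, Or.inr (Or.inl ha)⟩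
      · exact ⟨y, sw_n hp hq ha hb hya hyb, sw_n hp hq ha hb hya hyb, Or.inl rfl⟩
  · exact ⟨y, sw_out h, sw_out h, Or.inl rfl⟩

theorem pair_mem_img {p q s x y : ZFSet.{u}} (hp : Fn p) (hq : Fn q) (hs : Fn s) :
    pair x y ∈ img s (sw p q) ↔ ∃ z, pair x z ∈ s ∧ sw p q (pair x z) = pair x y := by
  rw [mem_img]
  constructor
  · rintro ⟨w, hw, h⟩
    obtain ⟨a, b, rfl⟩ := hs.2 w hw
    obtain ⟨z, h1, -, -⟩ := sw_cases hp hq a b
    have h2 := h1.symm.trans h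
    have h3 := (pair_inj.1 h2).1
    subst h3
    exact ⟨b, hw, h⟩
  · rintro ⟨z, h1, h2⟩
    exact ⟨_, h1, h2⟩

theorem dom_img {p q s : ZFSet.{u}} (hp : Fn p) (hq : Fn q) (hs : Fn s) :
    dom (img s (sw p q)) = dom s := by
  ext x
  rw [mem_dom, mem_dom]
  constructor
  · rintro ⟨y, hy⟩
    obtain ⟨z, h1, -⟩ := (pair_mem_img hp hq hs).1 hy
    exact ⟨z, h1⟩
  · rintro ⟨z, hz⟩
    obtain ⟨y, h1, -, -⟩ := sw_cases hp hq x z
    exact ⟨y, (pair_mem_img hp hq hs).2 ⟨z, hz, h1⟩⟩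

theorem fn_img {p q s : ZFSet.{u}} (hp : Fn p) (hq : Fn q) (hs : Fn s) :
    Fn (img s (sw p q)) := by
  constructor
  · intro x y z h1 h2
    obtain ⟨a, ha, ha'⟩ := (pair_mem_img hp hq hs).1 h1
    obtain ⟨b, hb, hb'⟩ := (pair_mem_img hp hq hs).1 h2
    have hab := hs.1 _ _ _ ha hb
    subst hab
    rw [ha'] at hb'
    exact (pair_inj.1 hb').2
  · intro w hw
    obtain ⟨v, hv, rfl⟩ := mem_img.1 hw
    obtain ⟨a, b, rfl⟩ := hs.2 v hv
    obtain ⟨z, h1, -, -⟩ := sw_cases hp hq a b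
    exact ⟨a, z, h1⟩

theorem img_img {p q s : ZFSet.{u}} (hp : Fn p) (hq : Fn q) (hs : Fn s) :
    img (img s (sw p q)) (sw p q) = s := by
  ext w
  constructor
  · intro hw
    obtain ⟨v, hv, rfl⟩ := mem_img.1 hw
    obtain ⟨t, ht, rfl⟩ := mem_img.1 hv
    obtain ⟨a, b, rfl⟩ := hs.2 t ht
    obtain ⟨z, h1, h2, -⟩ := sw_cases hp hq a b
    rw [h1, h2]
    exact ht
  · intro hw
    obtain ⟨a, b, rfl⟩ := hs.2 w hw
    obtain ⟨z, h1, h2, -⟩ := sw_cases hp hq a b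
    rw [mem_img]
    refine ⟨pair a z, ?_, h2⟩
    rw [mem_img]
    exact ⟨_, hw, h1⟩

theorem img_mono {g : ZFSet.{u} → ZFSet.{u}} {s t : ZFSet.{u}} (h : s ⊆ t) :
    img s g ⊆ img t g := by
  intro w hw
  rw [mem_img] at hw ⊢
  obtain ⟨v, hv, h1⟩ := hw
  exact ⟨v, h hv, h1⟩

theorem sw_U {C : Cls.{u}} [ZCls C] :
    U C (fun _ _ (a : (ZFSet.{u} × ZFSet.{u}) × ZFSet.{u}) => sw a.1.1 a.1.2 a.2) := by
  unfold sw
  refine U_cit ?_ (U_cit ?_ ?_ (U_cit ?_ ?_ ?_)) ?_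
  all_goals apply_rules (transparency := .reducible) (maxDepth := 400) using is_poly

theorem img_sw_U {C : Cls.{u}} [ZCls C] :
    U C (fun _ _ (a : (ZFSet.{u} × ZFSet.{u}) × ZFSet.{u}) => img a.2 (sw a.1.1 a.1.2)) := by
  refine U.img (g := fun _ _ (a : (ZFSet.{u} × ZFSet.{u}) × ZFSet.{u}) z => sw a.1.1 a.1.2 z)
    U.id.snd ?_
  exact sw_U.comp (f := fun _ _ (b : ((ZFSet.{u} × ZFSet.{u}) × ZFSet.{u}) × ZFSet.{u}) =>
    (b.1.1, b.2)) (by
      apply_rules (transparency := .reducible) (maxDepth := 400) using is_poly)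

theorem gr_sw_U {C : Cls.{u}} [ZCls C] :
    U C (fun _ _ (a : (ZFSet.{u} × ZFSet.{u}) × ZFSet.{u}) =>
      gr a.2 (fun s => img s (sw a.1.1 a.1.2))) := by
  refine U.gr (g := fun _ _ (a : (ZFSet.{u} × ZFSet.{u}) × ZFSet.{u}) s =>
    img s (sw a.1.1 a.1.2)) U.id.snd ?_
  exact img_sw_U.comp (f := fun _ _ (b : ((ZFSet.{u} × ZFSet.{u}) × ZFSet.{u}) × ZFSet.{u}) =>
    (b.1.1, b.2)) (by
      apply_rules (transparency := .reducible) (maxDepth := 400) using is_poly)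

theorem img_mem_FP {M A : Set ZFSet.{u}} (hM : IsZF M A) {T J p q s : ZFSet.{u}}
    (hp : p ∈ FP M T J) (hq : q ∈ FP M T J) (hs : s ∈ FP M T J) :
    img s (sw p q) ∈ FP M T J := by
  rw [mem_FP] at hp hq hs ⊢
  refine ⟨?_, ?_, fn_img hp.2.2.1 hq.2.2.1 hs.2.2.1, ?_⟩
  · have := in_zfset.1 ((img_sw_U (C := fun M A => IsZF M A)).closed hM (a := ((p, q), s))
      (by simp [hp.1, hq.1, hs.1]))
    exact this
  · intro w hw
    obtain ⟨v, hv, rfl⟩ := mem_img.1 hw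
    obtain ⟨a, b, rfl⟩ := hs.2.2.1.2 v hv
    obtain ⟨z, h1, -, h2⟩ := sw_cases hp.2.2.1 hq.2.2.1 a b
    rw [h1]
    rcases h2 with rfl | h2 | h2
    · exact hs.2.1 hv
    · exact hp.2.1 h2
    · exact hq.2.1 h2
  · rw [dom_img hp.2.2.1 hq.2.2.1 hs.2.2.1]
    exact hs.2.2.2

theorem union_mem_FP {M A : Set ZFSet.{u}} (hM : IsZF M A) {T J p q : ZFSet.{u}}
    (hJ : ∀ a ∈ J, ∀ b ∈ J, a ∪ b ∈ J)
    (hp : p ∈ FP M T J) (hq : q ∈ FP M T J) :
    img p (sw p q) ∪ q ∈ FP M T J := by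
  have h0 := img_mem_FP hM hp hq hp
  rw [mem_FP] at hp hq h0 ⊢
  have hfn := fn_img hp.2.2.1 hq.2.2.1 hp.2.2.1
  have key : ∀ x y z, pair x y ∈ img p (sw p q) → pair x z ∈ q → y = z := by
    intro x y z h1 h2
    obtain ⟨w, hw, h3⟩ := (pair_mem_img hp.2.2.1 hq.2.2.1 hp.2.2.1).1 h1
    rw [sw_p hp.2.2.1 hq.2.2.1 hw h2] at h3
    exact (pair_inj.1 h3).2.symm
  refine ⟨?_, ?_, ⟨?_, ?_⟩, ?_⟩
  · have h1 : U (fun M A => IsZF M A) (fun _ _ (a : ZFSet.{u} × ZFSet.{u}) => a.1 ∪ a.2) := by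
      apply_rules (transparency := .reducible) (maxDepth := 400) using is_poly
    exact in_zfset.1 (h1.closed hM (a := (img p (sw p q), q)) (by simp [h0.1, hq.1]))
  · intro w hw
    rw [ZFSet.mem_union] at hw
    rcases hw with hw | hw
    · exact h0.2.1 hw
    · exact hq.2.1 hw
  · intro x y z h1 h2
    rw [ZFSet.mem_union] at h1 h2
    rcases h1 with h1 | h1 <;> rcases h2 with h2 | h2
    · exact hfn.1 _ _ _ h1 h2
    · exact key _ _ _ h1 h2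
    · exact (key _ _ _ h2 h1).symm
    · exact hq.2.2.1.1 _ _ _ h1 h2
  · intro s hs
    rw [ZFSet.mem_union] at hs
    rcases hs with hs | hs
    · exact hfn.2 s hs
    · exact hq.2.2.1.2 s hs
  · have : dom (img p (sw p q) ∪ q) = dom p ∪ dom q := by
      rw [← dom_img hp.2.2.1 hq.2.2.1 hp.2.2.1]
      ext x
      simp only [mem_dom, ZFSet.mem_union]
      constructor
      · rintro ⟨y, h | h⟩
        · exact Or.inl ⟨y, h⟩
        · exact Or.inr ⟨y, h⟩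
      · rintro (⟨y, h⟩ | ⟨y, h⟩)
        · exact ⟨y, Or.inl h⟩
        · exact ⟨y, Or.inr h⟩
    rw [this]
    exact hJ _ hp.2.2.2 _ hq.2.2.2

theorem st_F2 : ST_F2.{u} := by
  intro M A T J hM hT hJ hU
  have hP := FP_mem hM hT hJ
  refine ⟨hP, ?_⟩
  intro p hp q hq
  have hp' := (mem_FP.1 hp).2.2.1
  have hq' := (mem_FP.1 hq).2.2.1
  refine ⟨gr (FP M T J) (fun s => img s (sw p q)), ?_, ⟨?_, ?_, ?_⟩, img p (sw p q), ?_,
    img p (sw p q) ∪ q, union_mem_FP hM hU hp hq, ?_, ?_⟩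
  · exact in_zfset.1 ((gr_sw_U (C := fun M A => IsZF M A)).closed hM (a := ((p, q), FP M T J))
      (by simp [(mem_FP.1 hp).1, (mem_FP.1 hq).1, hP]))
  · constructor
    · intro w hw
      obtain ⟨s, hs, rfl⟩ := mem_gr.1 hw
      exact pair_mem_prod.2 ⟨hs, img_mem_FP hM hp hq hs⟩
    · intro s hs
      exact ⟨_, pair_mem_gr.2 ⟨hs, rfl⟩, fun y hy => (pair_mem_gr.1 hy).2⟩
  · intro s hs
    refine ⟨img s (sw p q), img_mem_FP hM hp hq hs, pair_mem_gr.2 ⟨img_mem_FP hM hp hq hs, ?_⟩⟩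
    rw [img_img hp' hq' (mem_FP.1 hs).2.2.1]
  · intro s t s' t' h1 h2
    obtain ⟨hs, rfl⟩ := pair_mem_gr.1 h1
    obtain ⟨ht, rfl⟩ := pair_mem_gr.1 h2
    constructor
    · exact fun h => img_mono h
    · intro h
      have := img_mono (g := sw p q) h
      rwa [img_img hp' hq' (mem_FP.1 hs).2.2.1, img_img hp' hq' (mem_FP.1 ht).2.2.1] at this
  · exact pair_mem_gr.2 ⟨hp, rfl⟩
  · intro w hw
    rw [ZFSet.mem_union]
    exact Or.inl hw
  · intro w hw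
    rw [ZFSet.mem_union]
    exact Or.inr hw

end Pool.Agent.Helper83.SC
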